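import Pool.Agent.H809_TA.Spence
import Pool.Agent.H809_TA.Design
import Pool.Agent.H809_TA.DesignDefs
import Pool.Agent.H809_TA.AffineDefs

/-!
Every symmetric design of Wallis or of Spence, built from arbitrary affine resolvable designs, and
every complement of such a design, can be arranged with respect to every block.
-/

set_option autoImplicit false

namespace Pool.Agent.Results.MP_77d020_co.AffineTypeDesigns

open Pool.Agent.H809_TA

theorem result : ∀ (P : Type) [Fintype P] [DecidableEq P] (Blk : Finset (Finset P)) (k lam : ℕ),
    IsSymDesign Blk k lam → lam + 2 < k →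
    (IsAffineType (BlkMem Blk) ∨ IsAffineType (BlkMiss Blk)) →
    ∀ B0 ∈ Blk, HasArrangement Blk B0 := by
  intro P _ _ Blk k lam hD hk h B0 hB0
  apply hasArrangement_of_desArr hD (by omega) B0 hB0
  rcases h with h | h
  · exact desArr_affine h _
  · exact desArr_of_compl (desArr_affine h _)

end Pool.Agent.Results.MP_77d020_co.AffineTypeDesigns
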