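import Pool.Agent.H809_TA.Geometry
import Pool.Agent.H809_TA.Design
import Pool.Agent.H809_TA.DesignDefs
import Pool.Agent.H809_TA.GeomDefs

/-!
Every symmetric design of a resolvable partial geometry, for instance of a net, and every
complement of such a design, can be arranged with respect to every block.
-/

set_option autoImplicit false

namespace Pool.Agent.Results.MP_77d020_co.GeometricDesigns

open Pool.Agent.H809_TA

theorem result : ∀ (P : Type) [Fintype P] [DecidableEq P] (Blk : Finset (Finset P)) (k lam : ℕ),
    IsSymDesign Blk k lam → lam + 2 < k →
    (IsGeometric (BlkMem Blk) ∨ IsGeometric (BlkMiss Blk)) →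
    ∀ B0 ∈ Blk, HasArrangement Blk B0 := by
  intro P _ _ Blk k lam hD hk h B0 hB0
  apply hasArrangement_of_desArr hD (by omega) B0 hB0
  rcases h with h | h
  · exact desArr_geometric h _
  · exact desArr_of_compl (desArr_geometric h _)

end Pool.Agent.Results.MP_77d020_co.GeometricDesigns
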